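import Pool.Agent.Q303.SubD

/-! MP_f7d718_lc, Q2: isomorphism of countable graphs is Borel reducible to conjugacy of
topologically transitive homeomorphisms of the Cantor set. -/

open Set Topology Filter MeasureTheory

namespace Pool.Agent.Results.MP_f7d718_lc.Transitive

open Pool.Agent.Q303.Sub Pool.Agent.Q303.Split

/-- topological transitivity of a homeomorphism of the Cantor set -/
def IsTransitive (T : (ℕ → Bool) ≃ₜ (ℕ → Bool)) : Prop :=
  ∀ U V : Set (ℕ → Bool), IsOpen U → IsOpen V → U.Nonempty → V.Nonempty →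
    ∃ n : ℤ, ((T ^ n : (ℕ → Bool) ≃ₜ (ℕ → Bool)) '' U ∩ V).Nonempty

/-- graphs on the natural numbers, given by their (symmetric, irreflexive) adjacency matrix -/
abbrev Graph := {A : ℕ → ℕ → Bool // (∀ i j, A i j = A j i) ∧ ∀ i, A i i = false}

/-- a homeomorphism as an element of the space `C(2^ℕ, 2^ℕ)` with the compact-open topology,
that is, the topology of uniform convergence -/
def toC (T : (ℕ → Bool) ≃ₜ (ℕ → Bool)) : C(ℕ → Bool, ℕ → Bool) := ⟨T, T.continuous⟩

/-- There is a Borel map from countable graphs to homeomorphisms of the Cantor set, all of whose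
values are topologically transitive, such that two graphs are isomorphic iff their images are
conjugate. -/
theorem result : ∃ T : Graph → (ℕ → Bool) ≃ₜ (ℕ → Bool),
    @Measurable _ _ _ (borel _) (fun G => toC (T G)) ∧
    @Measurable _ _ _ (borel _) (fun G => toC (T G)⁻¹) ∧
    (∀ G, IsTransitive (T G)) ∧
    ∀ G H : Graph, (∃ π : Equiv.Perm ℕ, ∀ i j, G.1 i j = H.1 (π i) (π j)) ↔
      ∃ h : (ℕ → Bool) ≃ₜ (ℕ → Bool), T H = h * T G * h⁻¹ := by
  obtain ⟨T, h, h1, h2, h3⟩ := family
  refine ⟨T, h1, h2, ?_, ?_⟩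
  · intro G U V hU hV hUne hVne
    obtain ⟨u, hu⟩ := hUne
    obtain ⟨v, hv⟩ := hVne
    obtain ⟨n, x, hx1, hx2⟩ := trans_W (U := h G ⁻¹' U) (V := h G ⁻¹' V)
      (hU.preimage (h G).continuous) (hV.preimage (h G).continuous)
      ⟨(h G).symm u, by simpa using hu⟩ ⟨(h G).symm v, by simpa using hv⟩
    refine ⟨n, h G ((S G.1 ^ n) x), ⟨h G x, hx1, ?_⟩, hx2⟩
    rw [zpow_natCast]
    exact (conj_pow (h G) (h3 G) n x).symm
  · intro G H
    constructor
    · rintro ⟨π, hπ⟩
      obtain ⟨k, hk⟩ := conj_of_iso hπ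
      refine ⟨((h G).symm.trans k).trans (h H), ?_⟩
      rw [eq_mul_inv_iff_mul_eq]
      ext1 y
      show T H (h H (k ((h G).symm y))) = h H (k ((h G).symm (T G y)))
      rw [← h3 H, ← hk]
      congr 2
      apply (h G).injective
      rw [h3 G, (h G).apply_symm_apply, (h G).apply_symm_apply]
    · rintro ⟨k, hk⟩
      have hk' : ∀ y, T H (k y) = k (T G y) := by
        intro y
        rw [hk]
        show k (T G (k⁻¹ (k y))) = _
        congr 2
        exact k.symm_apply_apply y
      refine iso_of_conj G.2.2 H.2.2 (((h G).trans k).trans (h H).symm) ?_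
      intro x
      show (h H).symm (k (h G (S G.1 x))) = S H.1 ((h H).symm (k (h G x)))
      apply (h H).injective
      rw [h3 H, (h H).apply_symm_apply, (h H).apply_symm_apply, h3 G, hk']

end Pool.Agent.Results.MP_f7d718_lc.Transitive
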